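import Mathlib

open Cardinal Ordinal Set Order

universe u

namespace Q210.CH

/-- The successor cardinal of `lam`, as the well-ordered type of the ordinals below it. -/
abbrev SuccT (lam : Cardinal.{u}) : Type (u+1) := Set.Iio (Order.succ lam).ord

/-- The cardinal `lam`, as the well-ordered type of the ordinals below it. -/
abbrev CardT (lam : Cardinal.{u}) : Type (u+1) := Set.Iio lam.ord

/-- The set `A(d)` of the problem: all `α < lam⁺` such that for every cofinal `B ⊆ α` there are
`η < α` and a cofinal `B' ⊆ B` on which `β ↦ d η β` is injective.  (A subset of `α` is cofinal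
if its supremum is `α`.) -/
def InjSet {lam : Cardinal.{u}} (d : SuccT lam → SuccT lam → CardT lam) : Set (SuccT lam) :=
  {α | ∀ B : Set (SuccT lam), B ⊆ Set.Iio α → IsLUB B α →
    ∃ η < α, ∃ B' ⊆ B, IsLUB B' α ∧ Set.InjOn (d η) B'}

/-- The set of the `α < lam⁺` whose cofinality is not the cofinality of `lam`. -/
def NeCof (lam : Cardinal.{u}) : Set (SuccT lam) := {α | α.1.cof ≠ lam.ord.cof}

/-- The statement asked for by the problem, at `lam`: for every `d : lam⁺ × lam⁺ → lam` the set
`E_{≠ cf lam} \ A(d)` is stationary in `lam⁺`. -/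
def StationaryFailure (lam : Cardinal.{u}) : Prop :=
  ∀ d : SuccT lam → SuccT lam → CardT lam, IsStationary (NeCof lam \ InjSet d)

/-- There is a fine normal `κ`-complete ultrafilter on `P_κ(T)`, and `κ` is uncountable: for `T`
the set of ordinals below the cardinal `θ` this says that `κ` is `θ`-supercompact. -/
def IsSupercompactOn (kap : Cardinal.{u}) (T : Type (u+1)) : Prop :=
  ℵ₀ < kap ∧ ∃ U : Ultrafilter (Set T),
    {x : Set T | #x < Cardinal.lift.{u+1} kap} ∈ U ∧
    (∀ a : T, {x : Set T | a ∈ x} ∈ U) ∧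
    (∀ (ι : Type u) (S : ι → Set (Set T)), #ι < kap → (∀ i, S i ∈ U) → (⋂ i, S i) ∈ U) ∧
    (∀ f : Set T → T, {x : Set T | f x ∈ x} ∈ U → ∃ a, {x : Set T | f x = a} ∈ U)

/-- `κ` is supercompact: it is `θ`-supercompact for every cardinal `θ ≥ κ`. -/
def IsSupercompact (kap : Cardinal.{u}) : Prop :=
  ∀ th : Cardinal.{u}, kap ≤ th → IsSupercompactOn kap (Set.Iio th.ord)

/-- Chang's conjecture `(lam⁺, lam) ↠ (nu⁺, nu)`: every structure on `lam⁺` in a countable
first-order language has an elementary substructure `X` with `|X| = nu⁺` and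
`|X ∩ lam| = nu`. -/
def Chang (lam nu : Cardinal.{u}) : Prop :=
  ∀ (L : FirstOrder.Language.{0,0}) [L.Structure (SuccT lam)], L.card ≤ ℵ₀ →
    ∃ X : L.ElementarySubstructure (SuccT lam),
      #X = Cardinal.lift.{u+1} (Order.succ nu) ∧
      #{x : SuccT lam | x ∈ X ∧ x.1 < lam.ord} = Cardinal.lift.{u+1} nu

end Q210.CH
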