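import Pool.Agent.Q210.CH.Defs

open Cardinal Ordinal Set Order

universe u

namespace Q210.CH

variable {lam : Cardinal.{u}}

lemma lt_succT {lam : Cardinal.{u}} {o : Ordinal.{u}} (h : o < lam.ord) :
    o < (Order.succ lam).ord := h.trans (ord_lt_ord.2 (Order.lt_succ lam))

/-- inclusion of `lam` in `lam⁺` -/
def inc (x : CardT lam) : SuccT lam := ⟨x.1, lt_succT x.2⟩

lemma mk_CardT : #(CardT lam) = Cardinal.lift.{u+1} lam := by
  rw [Cardinal.mk_Iio_ordinal, card_ord]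

lemma mk_Iio_succT (γ : SuccT lam) :
    #(Set.Iio γ) ≤ Cardinal.lift.{u+1} lam := by
  have h1 : #(Set.Iio γ) ≤ #(Set.Iio γ.1) := by
    refine Cardinal.mk_le_of_injective (f := fun x : Set.Iio γ => (⟨x.1.1, x.2⟩ : Set.Iio γ.1)) ?_
    intro x y hxy
    apply Subtype.ext
    apply Subtype.ext
    exact congrArg (fun z : Set.Iio γ.1 => z.1) hxy
  refine h1.trans ?_
  rw [Cardinal.mk_Iio_ordinal, Cardinal.lift_le]
  have := lt_ord.1 γ.2
  exact Order.lt_succ_iff.1 this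

lemma exists_e (hlam : ℵ₀ ≤ lam) (γ : SuccT lam) : ∃ e : SuccT lam → SuccT lam,
    (∀ η, (e η).1 < lam.ord) ∧ Set.InjOn e (Set.Iio γ) := by
  have h := mk_Iio_succT γ
  rw [← mk_CardT] at h
  obtain ⟨f⟩ := h
  have h0 : (0 : Ordinal) < lam.ord := by
    rw [← Cardinal.ord_zero]
    exact ord_lt_ord.2 (lt_of_lt_of_le aleph0_pos hlam)
  classical
  refine ⟨fun η => if h : η < γ then inc (f ⟨η, h⟩) else inc ⟨0, h0⟩, ?_, ?_⟩
  · intro η
    dsimp only
    split_ifs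
    · exact (f _).2
    · exact h0
  · intro x hx y hy hxy
    have hx' : x < γ := hx
    have hy' : y < γ := hy
    simp only [hx', hy', dif_pos] at hxy
    have h2 : f ⟨x, hx'⟩ = f ⟨y, hy'⟩ := by
      apply Subtype.ext
      exact congrArg (fun z : SuccT lam => z.1) hxy
    have h3 := f.injective h2
    exact congrArg (fun z : Set.Iio γ => z.1) h3

lemma exists_code (hlam : lam.IsStrongLimit) (m : SuccT lam) (hm : m.1 < lam.ord) :
    ∃ c : Set (SuccT lam × SuccT lam) → SuccT lam,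
      (∀ P, (c P).1 < lam.ord) ∧ Set.InjOn c (𝒫 (Set.Iio m ×ˢ Set.Iio m)) := by
  have hlam0 : ℵ₀ ≤ lam := hlam.aleph0_le
  have h1 : #(Set.Iio m) < Cardinal.lift.{u+1} lam := by
    have h1 : #(Set.Iio m) ≤ #(Set.Iio m.1) := by
      refine Cardinal.mk_le_of_injective
        (f := fun x : Set.Iio m => (⟨x.1.1, x.2⟩ : Set.Iio m.1)) ?_
      intro x y hxy
      apply Subtype.ext
      apply Subtype.ext
      exact congrArg (fun z : Set.Iio m.1 => z.1) hxy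
    refine h1.trans_lt ?_
    rw [Cardinal.mk_Iio_ordinal, Cardinal.lift_lt]
    exact lt_ord.1 hm
  have h2 : #(Set.Iio m ×ˢ Set.Iio m : Set (SuccT lam × SuccT lam)) <
      Cardinal.lift.{u+1} lam := by
    rw [Cardinal.mk_setProd]
    exact Cardinal.mul_lt_of_lt (by rwa [Cardinal.aleph0_le_lift]) h1 h1
  have h3 : #(𝒫 (Set.Iio m ×ˢ Set.Iio m : Set (SuccT lam × SuccT lam))) ≤ #(CardT lam) := by
    rw [Cardinal.mk_powerset, mk_CardT]
    obtain ⟨a, ha⟩ := Cardinal.mem_range_lift_of_le h2.le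
    rw [← ha] at h2 ⊢
    rw [Cardinal.lift_lt] at h2
    rw [← Cardinal.lift_two_power, Cardinal.lift_le]
    exact (hlam.isStrongPrelimit h2).le
  obtain ⟨f⟩ := h3
  have h0 : (0 : Ordinal) < lam.ord := by
    rw [← Cardinal.ord_zero]
    exact ord_lt_ord.2 (lt_of_lt_of_le aleph0_pos hlam0)
  classical
  refine ⟨fun P => if h : P ∈ 𝒫 (Set.Iio m ×ˢ Set.Iio m) then inc (f ⟨P, h⟩) else inc ⟨0, h0⟩,
    ?_, ?_⟩
  · intro P
    dsimp only
    split_ifs
    · exact (f _).2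
    · exact h0
  · intro x hx y hy hxy
    simp only [hx, hy, dif_pos] at hxy
    have h2 : f ⟨x, hx⟩ = f ⟨y, hy⟩ := by
      apply Subtype.ext
      exact congrArg (fun z : SuccT lam => z.1) hxy
    have h3 := f.injective h2
    exact congrArg (fun z : 𝒫 (Set.Iio m ×ˢ Set.Iio m : Set (SuccT lam × SuccT lam)) => z.1) h3

/-- a cofinal family below `lam` of size the cofinality -/
lemma exists_cofam (hlam : ℵ₀ ≤ lam) : ∃ (ι : Type u) (m : ι → SuccT lam),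
    #ι = lam.ord.cof ∧ (∀ i, (m i).1 < lam.ord) ∧ ∀ ξ : Ordinal, ξ < lam.ord → ∃ i, ξ < (m i).1 := by
  obtain ⟨s, hs, hs'⟩ := Order.exists_cof_eq (α := lam.ord.ToType)
  rw [cof_toType] at hs'
  refine ⟨s, fun i => inc (ToType.mk.symm i.1), hs', fun i => (ToType.mk.symm i.1).2, ?_⟩
  intro ξ hξ
  have hlim : IsSuccLimit lam.ord := Cardinal.isSuccLimit_ord hlam
  have h2 : Order.succ ξ < lam.ord := hlim.succ_lt hξ
  obtain ⟨b, hb, hb'⟩ := hs (ToType.mk ⟨Order.succ ξ, h2⟩)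
  refine ⟨⟨b, hb⟩, ?_⟩
  have h3 : (⟨Order.succ ξ, h2⟩ : Set.Iio lam.ord) ≤ ToType.mk.symm b := by
    rw [OrderIso.le_symm_apply]
    exact hb'
  exact lt_of_lt_of_le (Order.lt_succ ξ) h3

section core

variable (d : SuccT lam → SuccT lam → CardT lam) (e : SuccT lam → SuccT lam → SuccT lam)

/-- the piece of the colouring seen through `e γ` below `m` -/
def piece (m γ β : SuccT lam) : Set (SuccT lam × SuccT lam) :=
  {p | p.1 < m ∧ p.2 < m ∧ ∃ η < γ, e γ η = p.1 ∧ inc (d η β) = p.2}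

lemma piece_sub (m γ β : SuccT lam) : piece d e m γ β ∈ 𝒫 (Set.Iio m ×ˢ Set.Iio m) := by
  intro p hp
  exact ⟨hp.1, hp.2.1⟩

lemma inc_inj {x y : CardT lam} (h : inc x = inc y) : x = y := by
  apply Subtype.ext
  exact congrArg (fun z : SuccT lam => z.1) h

variable {d e}

theorem core (he1 : ∀ γ η, (e γ η).1 < lam.ord)
    (he2 : ∀ γ, Set.InjOn (e γ) (Set.Iio γ))
    {ι : Type u} (m : ι → SuccT lam) (hm : ∀ ξ : Ordinal, ξ < lam.ord → ∃ i, ξ < (m i).1)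
    (c : ι → Set (SuccT lam × SuccT lam) → SuccT lam)
    (hc1 : ∀ i P, (c i P).1 < lam.ord)
    (hc : ∀ i, Set.InjOn (c i) (𝒫 (Set.Iio (m i) ×ˢ Set.Iio (m i))))
    (X : Set (SuccT lam)) (α : SuccT lam) (hX : X ⊆ Set.Iio α) (hα : IsLUB X α)
    (hcl : ∀ i, ∀ γ ∈ X, ∀ β ∈ X, c i (piece d e (m i) γ β) ∈ X)
    (hbig : ∀ Y ⊆ X, IsLUB Y α →
      Cardinal.lift.{u+1} #ι * #{x : SuccT lam | x ∈ X ∧ x.1 < lam.ord} < #Y) :
    α ∉ InjSet d := by
  intro hmem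
  obtain ⟨η, hη, B, hB, hBα, hinj⟩ := hmem X hX hα
  obtain ⟨γ, hγ, hηγ⟩ : ∃ γ ∈ X, η < γ := (lt_isLUB_iff hα).1 hη
  have hmax : ∀ a b : Ordinal, a < lam.ord → b < lam.ord → ∃ i, a < (m i).1 ∧ b < (m i).1 := by
    intro a b ha hb
    obtain ⟨i, hi⟩ := hm (max a b) (max_lt ha hb)
    exact ⟨i, lt_of_le_of_lt (le_max_left _ _) hi, lt_of_le_of_lt (le_max_right _ _) hi⟩
  have hch : ∀ β : SuccT lam, ∃ i, (e γ η) < m i ∧ inc (d η β) < m i := by
    intro β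
    obtain ⟨i, h1, h2⟩ := hmax (e γ η).1 (inc (d η β)).1 (he1 _ _) (d η β).2
    exact ⟨i, h1, h2⟩
  choose g hg1 hg2 using hch
  have hle : #B ≤ #(ULift.{u+1} ι × {x : SuccT lam | x ∈ X ∧ x.1 < lam.ord}) := by
    refine Cardinal.mk_le_of_injective (f := fun β : B =>
      (ULift.up (g β.1), ⟨c (g β.1) (piece d e (m (g β.1)) γ β.1),
        hcl _ _ hγ _ (hB β.2), hc1 _ _⟩)) ?_
    rintro ⟨β, hβ⟩ ⟨β', hβ'⟩ h
    simp only [Prod.mk.injEq, ULift.up.injEq, Subtype.mk.injEq] at h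
    obtain ⟨h1, h2⟩ := h
    rw [← h1] at h2
    have h3 := hc _ (piece_sub d e _ _ _) (piece_sub d e _ _ _) h2
    have h4 : (e γ η, inc (d η β)) ∈ piece d e (m (g β)) γ β :=
      ⟨hg1 β, hg2 β, η, hηγ, rfl, rfl⟩
    rw [h3] at h4
    obtain ⟨_, _, η', hη', h5, h6⟩ := h4
    have h7 : η' = η := he2 γ hη' hηγ h5
    subst h7
    have h8 : d η' β' = d η' β := inc_inj h6
    exact Subtype.ext (hinj hβ hβ' h8.symm)
  have hlt := hbig B hB hBα
  rw [Cardinal.mk_prod, Cardinal.lift_id, Cardinal.lift_id, Cardinal.mk_uLift] at hle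
  exact absurd hlt (not_lt.2 hle)

/-- the cofinality is not that of `lam` -/
theorem core_cof (X : Set (SuccT lam)) (α : SuccT lam) (hX : X ⊆ Set.Iio α) (hα : IsLUB X α)
    (mu : Cardinal.{u})
    (hbig : ∀ Y ⊆ X, IsLUB Y α → Cardinal.lift.{u+1} mu < #Y) :
    α.1.cof ≠ mu := by
  intro h
  obtain ⟨s, hs, hs'⟩ := Order.exists_cof_eq (α := α.1.ToType)
  rw [cof_toType, h] at hs'
  have hlt : ∀ x : s, (ToType.mk.symm x.1).1 < (Order.succ lam).ord := fun x =>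
    lt_trans (ToType.mk.symm x.1).2 α.2
  have hch : ∀ x : s, ∃ y ∈ X, (⟨(ToType.mk.symm x.1).1, hlt x⟩ : SuccT lam) < y := by
    intro x
    exact (lt_isLUB_iff hα).1 (ToType.mk.symm x.1).2
  choose g hg1 hg2 using hch
  have h1 : IsLUB (Set.range g) α := by
    constructor
    · rintro _ ⟨x, rfl⟩
      exact le_of_lt (hX (hg1 x))
    · intro b hb
      by_contra hcon
      rw [not_le] at hcon
      obtain ⟨y, hy, hyy⟩ := hs (ToType.mk ⟨b.1, hcon⟩)
      have h2 : (⟨b.1, hcon⟩ : Set.Iio α.1) ≤ ToType.mk.symm y := by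
        rw [OrderIso.le_symm_apply]
        exact hyy
      have h3 := hg2 ⟨y, hy⟩
      have h4 : b < g ⟨y, hy⟩ := lt_of_le_of_lt h2 h3
      exact absurd (hb ⟨_, rfl⟩) (not_le.2 h4)
  have h2 := hbig (Set.range g) (by rintro _ ⟨x, rfl⟩; exact hg1 x) h1
  have h3 := Cardinal.mk_range_le_lift (f := g)
  rw [hs', Cardinal.lift_id'.{u, u+1}] at h3
  have h4 : Cardinal.lift.{u+1} mu = Cardinal.lift.{max (u+1) u} mu := rfl
  exact absurd h2 (not_lt.2 (by simpa using h3))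

end core

/-- small subsets of the successor cardinal are bounded -/
lemma exists_ub (hlam : ℵ₀ ≤ lam) (x : Set (SuccT lam))
    (hx : #x ≤ Cardinal.lift.{u+1} lam) : ∃ b, ∀ y ∈ x, y < b := by
  have h1 : #((fun y : SuccT lam => y.1) '' x : Set Ordinal.{u}) <
      (Ordinal.lift.{u+1} (Order.succ lam).ord).cof := by
    rw [← lift_cof, (Cardinal.isRegular_succ hlam).cof_ord]
    refine lt_of_le_of_lt (Cardinal.mk_image_le.trans hx) ?_
    rw [Cardinal.lift_lt]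
    exact Order.lt_succ lam
  have h2 := sSup_add_one_lt_of_lt_cof h1 (by rintro _ ⟨y, _, rfl⟩; exact y.2)
  refine ⟨⟨_, h2⟩, fun y hy => ?_⟩
  have h3 : y.1 + 1 ≤ sSup ((· + 1) '' ((fun y : SuccT lam => y.1) '' x)) := by
    apply le_csSup
    · refine ⟨(Order.succ lam).ord, ?_⟩
      rintro _ ⟨_, ⟨z, _, rfl⟩, rfl⟩
      exact Order.add_one_le_iff.2 z.2
    · exact ⟨_, ⟨y, hy, rfl⟩, rfl⟩
  have h4 : y.1 < y.1 + 1 := by
    rw [← Order.succ_eq_add_one]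
    exact Order.lt_succ _
  show y.1 < _
  exact lt_of_lt_of_le h4 h3

lemma exists_isLUB (x : Set (SuccT lam)) (hx : ∃ b, ∀ y ∈ x, y < b) : ∃ α, IsLUB x α := by
  obtain ⟨b, hb⟩ := hx
  have hne : (upperBounds x).Nonempty := ⟨b, fun y hy => (hb y hy).le⟩
  refine ⟨WellFounded.min (wellFounded_lt (α := SuccT lam)) (upperBounds x) hne, ?_, ?_⟩
  · exact WellFounded.min_mem _ _ _
  · intro c hc
    exact not_lt.1 (WellFounded.not_lt_min _ _ hc)

/-- from closed sets with large cofinal subsets to stationarity -/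
theorem stat_of_closed (hlam : lam.IsStrongLimit)
    (H : ∀ (ι : Type u) (F : ι → SuccT lam → SuccT lam → SuccT lam), #ι = lam.ord.cof →
      ∃ X : Set (SuccT lam), X.Nonempty ∧ #X ≤ Cardinal.lift.{u+1} lam ∧
        (∀ i, ∀ γ ∈ X, ∀ β ∈ X, F i γ β ∈ X) ∧
        (∀ Y ⊆ X, (∀ γ ∈ X, ∃ β ∈ Y, γ < β) →
          Cardinal.lift.{u+1} #ι * #{x : SuccT lam | x ∈ X ∧ x.1 < lam.ord} < #Y)) :
    StationaryFailure lam := by
  intro d C hC
  have hlam0 : ℵ₀ ≤ lam := hlam.aleph0_le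
  choose e he1 he2 using fun γ => exists_e hlam0 γ
  obtain ⟨ι, m, hι, hm1, hm⟩ := exists_cofam hlam0
  choose c hc1 hc2 using fun i => exists_code hlam (m i) (hm1 i)
  have hlim : IsSuccLimit (Order.succ lam).ord :=
    Cardinal.isSuccLimit_ord (hlam0.trans (Order.le_succ _))
  have hstep : ∀ γ : SuccT lam, ∃ s ∈ C, γ < s := by
    intro γ
    obtain ⟨s, hs, hs'⟩ := hC.isCofinal ⟨Order.succ γ.1, hlim.succ_lt γ.2⟩
    exact ⟨s, hs, lt_of_lt_of_le (Order.lt_succ γ.1) hs'⟩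
  choose s hs1 hs2 using hstep
  have hιne : Infinite ι := by
    rw [Cardinal.infinite_iff, hι]
    exact Ordinal.aleph0_le_cof.2 (Cardinal.isSuccLimit_ord hlam0)
  have hopt : #(Option ι) = lam.ord.cof := by
    have h9 : ℵ₀ ≤ #ι := Cardinal.infinite_iff.1 hιne
    rw [Cardinal.mk_option, Cardinal.add_one_eq h9, hι]
  obtain ⟨X, hXne, hXs, hXcl, hXbig⟩ := H (Option ι)
    (fun o => match o with
      | none => fun γ _ => s γ
      | some i => fun γ β => c i (piece d e (m i) γ β)) hopt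
  have hs3 : ∀ γ ∈ X, s γ ∈ X := fun γ hγ => hXcl none γ hγ γ hγ
  have hG : ∀ i, ∀ γ ∈ X, ∀ β ∈ X, c i (piece d e (m i) γ β) ∈ X :=
    fun i γ hγ β hβ => hXcl (some i) γ hγ β hβ
  obtain ⟨α, hα⟩ := exists_isLUB X (exists_ub hlam0 X hXs)
  have hXα : X ⊆ Set.Iio α := fun γ hγ => lt_of_lt_of_le (hs2 γ) (hα.1 (hs3 γ hγ))
  have hbig : ∀ Y ⊆ X, IsLUB Y α →
      Cardinal.lift.{u+1} #ι * #{x : SuccT lam | x ∈ X ∧ x.1 < lam.ord} < #Y := by
    intro Y hY hYα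
    have := hXbig Y hY (fun γ hγ => (lt_isLUB_iff hYα).1 (hXα hγ))
    rwa [hopt, ← hι] at this
  have hne : #{x : SuccT lam | x ∈ X ∧ x.1 < lam.ord} ≠ 0 := by
    rw [Cardinal.mk_ne_zero_iff]
    obtain ⟨γ, hγ⟩ := hXne
    obtain ⟨i⟩ : Nonempty ι := inferInstance
    exact ⟨⟨_, hG i γ hγ γ hγ, hc1 i _⟩⟩
  refine ⟨α, ⟨?_, ?_⟩, ?_⟩
  · show α.1.cof ≠ lam.ord.cof
    refine core_cof X α hXα hα _ (fun Y hY hYα => lt_of_le_of_lt ?_ (hbig Y hY hYα))
    rw [hι]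
    exact le_mul_of_one_le_right zero_le (Cardinal.one_le_iff_ne_zero.2 hne)
  · exact core he1 he2 m hm c hc1 hc2 X α hXα hα hG hbig
  · have h1 : IsLUB (X ∩ C) α := by
      constructor
      · exact fun y hy => hα.1 hy.1
      · intro b hb
        refine hα.2 (fun y hy => ?_)
        exact (hs2 y).le.trans (hb ⟨hs3 y hy, hs1 y⟩)
    refine hC.isLUB_mem (t := X ∩ C) Set.inter_subset_right ?_ h1
    obtain ⟨γ, hγ⟩ := hXne
    exact ⟨s γ, hs3 γ hγ, hs1 γ⟩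

/-! ### Supercompactness -/

section sc

variable {kap : Cardinal.{u}}

theorem sc_closed {T : Type (u+1)} (U : Ultrafilter (Set T))
    (hfine : ∀ a : T, {x : Set T | a ∈ x} ∈ U)
    (hnorm : ∀ f : Set T → T, {x : Set T | f x ∈ x} ∈ U → ∃ a, {x : Set T | f x = a} ∈ U)
    (F : T → T → T) : {x : Set T | ∀ a ∈ x, ∀ b ∈ x, F a b ∈ x} ∈ U := by
  classical
  by_contra hcon
  rw [← Ultrafilter.compl_mem_iff_notMem] at hcon
  have hch : ∀ x : Set T, ∃ p : T × T, x ∈ {x : Set T | ∀ a ∈ x, ∀ b ∈ x, F a b ∈ x}ᶜ →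
      p.1 ∈ x ∧ p.2 ∈ x ∧ F p.1 p.2 ∉ x := by
    intro x
    by_cases hx : x ∈ {x : Set T | ∀ a ∈ x, ∀ b ∈ x, F a b ∈ x}ᶜ
    · have hx' := hx
      simp only [Set.mem_compl_iff, Set.mem_setOf_eq, not_forall] at hx'
      obtain ⟨a, ha, b, hb, hab⟩ := hx'
      exact ⟨(a, b), fun _ => ⟨ha, hb, hab⟩⟩
    · obtain ⟨x0, hx0⟩ := Ultrafilter.nonempty_of_mem hcon
      simp only [Set.mem_compl_iff, Set.mem_setOf_eq, not_forall] at hx0
      obtain ⟨a, _⟩ := hx0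
      exact ⟨(a, a), fun h => absurd h hx⟩
  choose p hp using hch
  obtain ⟨a, ha⟩ := hnorm (fun x => (p x).1) (Filter.mem_of_superset hcon (fun x hx => (hp x hx).1))
  obtain ⟨b, hb⟩ := hnorm (fun x => (p x).2)
    (Filter.mem_of_superset hcon (fun x hx => (hp x hx).2.1))
  obtain ⟨x, ⟨⟨hx1, hx2⟩, hx3⟩, hx4⟩ := Ultrafilter.nonempty_of_mem
    (Filter.inter_mem (Filter.inter_mem (Filter.inter_mem ha hb) (hfine (F a b))) hcon)
  have h := (hp x hx4).2.2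
  have hx1' : (p x).1 = a := hx1
  have hx2' : (p x).2 = b := hx2
  rw [hx1', hx2'] at h
  exact h hx3

theorem sc_big (hlam : ℵ₀ ≤ lam) (U : Ultrafilter (Set (SuccT lam)))
    (hfine : ∀ a : SuccT lam, {x : Set (SuccT lam) | a ∈ x} ∈ U)
    (hnorm : ∀ f : Set (SuccT lam) → SuccT lam, {x : Set (SuccT lam) | f x ∈ x} ∈ U →
      ∃ a, {x : Set (SuccT lam) | f x = a} ∈ U) :
    {x : Set (SuccT lam) | ∀ Y ⊆ x, (∀ γ ∈ x, ∃ β ∈ Y, γ < β) →
      #{z : SuccT lam | z ∈ x ∧ z.1 < lam.ord} < #Y} ∈ U := by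
  classical
  by_contra hcon
  rw [← Ultrafilter.compl_mem_iff_notMem] at hcon
  -- a map sending the part of `x` below `lam` onto a cofinal set
  have hch : ∀ x : Set (SuccT lam), ∃ h : SuccT lam → SuccT lam,
      (∀ ξ ∈ x, h ξ ∈ x) ∧ (x ∈ {x : Set (SuccT lam) | ∀ Y ⊆ x, (∀ γ ∈ x, ∃ β ∈ Y, γ < β) →
      #{z : SuccT lam | z ∈ x ∧ z.1 < lam.ord} < #Y}ᶜ →
      ∀ γ ∈ x, ∃ ξ ∈ x, ξ.1 < lam.ord ∧ γ < h ξ) := by
    intro x
    by_cases hx : x ∈ {x : Set (SuccT lam) | ∀ Y ⊆ x, (∀ γ ∈ x, ∃ β ∈ Y, γ < β) →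
      #{z : SuccT lam | z ∈ x ∧ z.1 < lam.ord} < #Y}ᶜ
    · have hx' := hx
      simp only [Set.mem_compl_iff, Set.mem_setOf_eq, not_forall, not_lt] at hx'
      obtain ⟨Y, hY, hYc, hYs⟩ := hx'
      obtain ⟨f⟩ := hYs
      refine ⟨fun ξ => if h : ∃ y : Y, (f y).1 = ξ then h.choose.1 else ξ, ?_, ?_⟩
      · intro ξ hξ
        dsimp only
        split_ifs with h
        · exact hY h.choose.2
        · exact hξ
      · intro _ γ hγ
        obtain ⟨β, hβ, hγβ⟩ := hYc γ hγ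
        refine ⟨(f ⟨β, hβ⟩).1, (f ⟨β, hβ⟩).2.1, (f ⟨β, hβ⟩).2.2, ?_⟩
        have h : ∃ y : Y, (f y).1 = (f ⟨β, hβ⟩).1 := ⟨⟨β, hβ⟩, rfl⟩
        dsimp only
        rw [dif_pos h]
        have h2 : h.choose = ⟨β, hβ⟩ := f.injective (Subtype.ext h.choose_spec)
        rw [h2]
        exact hγβ
    · exact ⟨id, fun ξ hξ => hξ, fun h => absurd h hx⟩
  choose h hh1 hh2 using hch
  have hconst : ∀ ξ : SuccT lam, ∃ a, {x : Set (SuccT lam) | h x ξ = a} ∈ U := by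
    intro ξ
    exact hnorm (fun x => h x ξ) (Filter.mem_of_superset (hfine ξ) (fun x hx => hh1 x ξ hx))
  choose g hg using hconst
  obtain ⟨δ, hδ⟩ := exists_ub hlam (g '' {ξ : SuccT lam | ξ.1 < lam.ord}) (by
    refine Cardinal.mk_image_le.trans ?_
    rw [← mk_CardT]
    refine Cardinal.mk_le_of_injective
      (f := fun ξ : {ξ : SuccT lam | ξ.1 < lam.ord} => (⟨ξ.1.1, ξ.2⟩ : CardT lam)) ?_
    intro a b hab
    apply Subtype.ext
    apply Subtype.ext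
    exact congrArg (fun z : CardT lam => z.1) hab)
  have hch2 : ∀ x : Set (SuccT lam), ∃ ξ : SuccT lam,
      (x ∈ {x : Set (SuccT lam) | ∀ Y ⊆ x, (∀ γ ∈ x, ∃ β ∈ Y, γ < β) →
      #{z : SuccT lam | z ∈ x ∧ z.1 < lam.ord} < #Y}ᶜ ∧ δ ∈ x) →
      ξ ∈ x ∧ ξ.1 < lam.ord ∧ δ < h x ξ := by
    intro x
    by_cases hx : (x ∈ {x : Set (SuccT lam) | ∀ Y ⊆ x, (∀ γ ∈ x, ∃ β ∈ Y, γ < β) →
      #{z : SuccT lam | z ∈ x ∧ z.1 < lam.ord} < #Y}ᶜ ∧ δ ∈ x)
    · obtain ⟨ξ, h1, h2, h3⟩ := hh2 x hx.1 δ hx.2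
      exact ⟨ξ, fun _ => ⟨h1, h2, h3⟩⟩
    · exact ⟨δ, fun h => absurd h hx⟩
  choose k hk using hch2
  have hmem := Filter.inter_mem hcon (hfine δ)
  obtain ⟨ξ, hξ⟩ := hnorm k (Filter.mem_of_superset hmem (fun x hx => (hk x hx).1))
  obtain ⟨x, ⟨hx1, hx2⟩, hx3⟩ := Ultrafilter.nonempty_of_mem
    (Filter.inter_mem (Filter.inter_mem hξ (hg ξ)) hmem)
  have hx1' : k x = ξ := hx1
  have hx2' : h x ξ = g ξ := hx2
  obtain ⟨_, h2, h3⟩ := hk x hx3
  rw [hx1'] at h2 h3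
  rw [hx2'] at h3
  exact absurd (hδ _ ⟨ξ, h2, rfl⟩) (not_lt.2 h3.le)

theorem stat_sc (hlam : lam.IsStrongLimit) (hcf : lam.ord.cof < kap) (hkl : kap < lam)
    (hk : IsSupercompactOn kap (SuccT lam)) : StationaryFailure lam := by
  obtain ⟨hk0, U, hU1, hU2, hU3, hU4⟩ := hk
  have hlam0 : ℵ₀ ≤ lam := hlam.aleph0_le
  refine stat_of_closed hlam (fun ι F hι => ?_)
  have hιk : #ι < kap := by rw [hι]; exact hcf
  have hιinf : ℵ₀ ≤ #ι := by
    rw [hι]
    exact Ordinal.aleph0_le_cof.2 (Cardinal.isSuccLimit_ord hlam0)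
  -- an injection of ι into lam
  have hle : Cardinal.lift.{u+1} #ι ≤ Cardinal.lift.{u} #(CardT lam) := by
    rw [mk_CardT, Cardinal.lift_lift, Cardinal.lift_le.{max u (u+1)}]
    rw [hι]
    exact cof_ord_le lam
  obtain ⟨f⟩ := Cardinal.lift_mk_le'.1 hle
  have hA : {x : Set (SuccT lam) | ∀ i, ∀ a ∈ x, ∀ b ∈ x, F i a b ∈ x} ∈ U := by
    refine Filter.mem_of_superset (hU3 ι _ hιk (fun i => sc_closed U hU2 hU4 (F i))) ?_
    intro x hx i a ha b hb
    exact Set.mem_iInter.1 hx i a ha b hb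
  have hB : {x : Set (SuccT lam) | ∀ i : ι, inc (f i) ∈ x} ∈ U := by
    refine Filter.mem_of_superset (hU3 ι _ hιk (fun i => hU2 (inc (f i)))) ?_
    intro x hx i
    exact Set.mem_iInter.1 hx i
  obtain ⟨x, ⟨⟨⟨hx1, hx2⟩, hx3⟩, hx4⟩⟩ := Ultrafilter.nonempty_of_mem
    (Filter.inter_mem (Filter.inter_mem (Filter.inter_mem hA hB) (sc_big hlam0 U hU2 hU4)) hU1)
  have hxι : Cardinal.lift.{u+1} #ι ≤ #{z : SuccT lam | z ∈ x ∧ z.1 < lam.ord} := by
    rw [← Cardinal.mk_uLift]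
    refine Cardinal.mk_le_of_injective (f := fun i : ULift.{u+1} ι =>
      (⟨inc (f i.down), hx2 i.down, (f i.down).2⟩ : {z : SuccT lam | z ∈ x ∧ z.1 < lam.ord})) ?_
    intro i j hij
    have h1 : inc (f i.down) = inc (f j.down) :=
      congrArg (fun z : {z : SuccT lam | z ∈ x ∧ z.1 < lam.ord} => z.1) hij
    exact ULift.down_injective (f.injective (inc_inj h1))
  obtain ⟨i0⟩ : Nonempty ι := by
    rw [← Cardinal.mk_ne_zero_iff]
    exact (lt_of_lt_of_le aleph0_pos hιinf).ne'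
  refine ⟨x, ⟨_, hx2 i0⟩, ?_, hx1, ?_⟩
  · exact (le_of_lt hx4).trans (Cardinal.lift_le.2 hkl.le)
  · intro Y hY hYc
    refine lt_of_le_of_lt ?_ (hx3 Y hY hYc)
    refine (mul_le_mul_left hxι _).trans ?_
    rw [Cardinal.mul_eq_self]
    exact (Cardinal.aleph0_le_lift.2 hιinf).trans hxι

end sc

/-! ### Chang's conjecture -/

section chang

/-- the language with a family of binary function symbols -/
def LB (κ : Type) : FirstOrder.Language.{0,0} where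
  Functions n := {_i : κ // n = 2}
  Relations _ := Empty

lemma card_LB (κ : Type) [Countable κ] : (LB κ).card ≤ ℵ₀ := by
  rw [FirstOrder.Language.card, Cardinal.mk_le_aleph0_iff]
  have h1 : Countable (Σ l, (LB κ).Functions l) := by
    have : ∀ l, Countable ((LB κ).Functions l) := fun l => by
      unfold LB
      infer_instance
    infer_instance
  have h2 : Countable (Σ l, (LB κ).Relations l) := by
    have : ∀ l, Countable ((LB κ).Relations l) := fun l => by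
      unfold LB
      infer_instance
    infer_instance
  infer_instance

/-- the structure given by a family of binary functions -/
@[reducible] def strLB {κ : Type} {T : Type*} (F : κ → T → T → T) : (LB κ).Structure T where
  funMap {n} i v := F i.1 (v ⟨0, by rw [i.2]; norm_num⟩) (v ⟨1, by rw [i.2]; norm_num⟩)
  RelMap r _ := Empty.elim r

theorem chang_closed {nu : Cardinal.{u}} (h : Chang lam nu) {κ : Type} [Countable κ]
    (F : κ → SuccT lam → SuccT lam → SuccT lam) : ∃ X : Set (SuccT lam),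
      #X = Cardinal.lift.{u+1} (Order.succ nu) ∧
      #{x : SuccT lam | x ∈ X ∧ x.1 < lam.ord} = Cardinal.lift.{u+1} nu ∧
      ∀ i, ∀ a ∈ X, ∀ b ∈ X, F i a b ∈ X := by
  let _ := strLB F
  obtain ⟨X, h1, h2⟩ := h (LB κ) (card_LB κ)
  refine ⟨X, h1, h2, ?_⟩
  intro i a ha b hb
  have h3 := X.toSubstructure.fun_mem (n := 2) (⟨i, rfl⟩ : {_i : κ // 2 = 2}) ![a, b] (by
    intro j
    fin_cases j
    · exact ha
    · exact hb)
  exact h3

theorem stat_chang {nu : Cardinal.{u}} (hlam : lam.IsStrongLimit) (hcf : lam.ord.cof = ℵ₀)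
    (hnu : ℵ₀ ≤ nu) (hnl : nu < lam) (h : Chang lam nu) : StationaryFailure lam := by
  have hlam0 : ℵ₀ ≤ lam := hlam.aleph0_le
  choose e he1 he2 using fun γ => exists_e hlam0 γ
  refine stat_of_closed hlam (fun ι F hι => ?_)
  rw [hcf] at hι
  obtain ⟨f⟩ : Nonempty (ι ≃ ℕ) := by
    have h0 : #ι = #(ULift.{u} ℕ) := by rw [hι]; simp
    obtain ⟨g⟩ := Cardinal.eq.1 h0
    exact ⟨g.trans Equiv.ulift⟩
  obtain ⟨X, h1, h2, h3⟩ := chang_closed h (κ := Option ℕ)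
    (fun o => match o with
      | none => e
      | some n => F (f.symm n))
  have h4 : ∀ γ ∈ X, #{y : SuccT lam | y ∈ X ∧ y < γ} ≤ Cardinal.lift.{u+1} nu := by
    intro γ hγ
    rw [← h2]
    refine Cardinal.mk_le_of_injective (f := fun y : {y : SuccT lam | y ∈ X ∧ y < γ} =>
      (⟨e γ y.1, h3 none γ hγ y.1 y.2.1, he1 _ _⟩ :
        {x : SuccT lam | x ∈ X ∧ x.1 < lam.ord})) ?_
    rintro ⟨y, hy⟩ ⟨z, hz⟩ hyz
    have h5 : e γ y = e γ z :=
      congrArg (fun w : {x : SuccT lam | x ∈ X ∧ x.1 < lam.ord} => w.1) hyz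
    exact Subtype.ext (he2 γ hy.2 hz.2 h5)
  refine ⟨X, ?_, ?_, ?_, ?_⟩
  · rw [Set.nonempty_iff_ne_empty]
    rintro rfl
    rw [Cardinal.mk_emptyCollection] at h1
    have h5 : Order.succ nu = 0 := by
      rw [← Cardinal.lift_eq_zero]
      exact h1.symm
    have h6 : (0 : Cardinal) < Order.succ nu :=
      lt_of_lt_of_le (lt_of_lt_of_le aleph0_pos hnu) (Order.le_succ _)
    exact h6.ne' h5
  · rw [h1]
    exact Cardinal.lift_le.2 (Order.succ_le_of_lt hnl)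
  · intro i a ha b hb
    have := h3 (some (f i)) a ha b hb
    simpa using this
  · intro Y hY hYc
    rw [h2, hι]
    have h5 : Cardinal.lift.{u+1} (ℵ₀ : Cardinal.{u}) * Cardinal.lift.{u+1} nu =
        Cardinal.lift.{u+1} nu := by
      rw [← Cardinal.lift_mul, Cardinal.aleph0_mul_eq hnu]
    rw [h5]
    by_contra hcon
    rw [not_lt] at hcon
    have hcov : X ⊆ ⋃ γ : Y, {y : SuccT lam | y ∈ X ∧ y < γ.1} := by
      intro y hy
      obtain ⟨β, hβ, hyβ⟩ := hYc y hy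
      exact Set.mem_iUnion.2 ⟨⟨β, hβ⟩, hy, hyβ⟩
    have h6 : #X ≤ Cardinal.lift.{u+1} nu := by
      refine (Cardinal.mk_le_mk_of_subset hcov).trans ?_
      refine (Cardinal.mk_iUnion_le _).trans ?_
      have h7 : (⨆ γ : Y, #{y : SuccT lam | y ∈ X ∧ y < γ.1}) ≤ Cardinal.lift.{u+1} nu := by
        apply ciSup_le'
        intro γ
        exact h4 _ (hY γ.2)
      refine (mul_le_mul' hcon h7).trans ?_
      rw [Cardinal.mul_eq_self (Cardinal.aleph0_le_lift.2 hnu)]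
    rw [h1, Cardinal.lift_le] at h6
    exact absurd (Order.lt_succ nu) (not_lt.2 h6)

end chang

/-! ### The existence of a suitable `lam` above a supercompact cardinal -/

theorem exists_lam (kap : Cardinal.{u}) (hk : ℵ₀ < kap) :
    ∃ lam : Cardinal.{u}, kap < lam ∧ lam.IsStrongLimit ∧ lam.ord.cof = ℵ₀ := by
  have h1 : IsSuccLimit (kap.ord + ω) := isSuccLimit_add _ isSuccLimit_omega0
  refine ⟨ℶ_ (kap.ord + ω), ?_, isStrongLimit_beth.2 h1.isSuccPrelimit, ?_⟩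
  · refine lt_of_le_of_lt (le_beth_ord kap) ?_
    rw [beth_lt_beth]
    exact lt_add_of_pos_right _ omega0_pos
  · have h2 : Order.IsNormal (fun o : Ordinal.{u} => (ℶ_ o).ord) := isNormal_ord.comp isNormal_beth
    have h3 := cof_map_of_isNormal h2 h1
    rw [h3, cof_add _ omega0_ne_zero, cof_omega0]

theorem exists_singular (h : ∃ kap : Cardinal.{u}, IsSupercompact kap) :
    ∃ lam : Cardinal.{u}, lam.IsSingular ∧ StationaryFailure lam := by
  obtain ⟨kap, hk⟩ := h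
  have hk0 : ℵ₀ < kap := (hk kap le_rfl).1
  obtain ⟨lam, h1, h2, h3⟩ := exists_lam kap hk0
  refine ⟨lam, ⟨h2.aleph0_le, ?_⟩, ?_⟩
  · rw [h3]
    exact (hk0.trans h1).ne
  · refine stat_sc h2 (by rw [h3]; exact hk0) h1 ?_
    exact hk (Order.succ lam) (h1.le.trans (Order.le_succ lam))

end Q210.CH
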